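import Pool.Agent.H550R2.SymGI.Core

set_option autoImplicit false
set_option linter.unusedSectionVars false

/-! Locally symmetric networks for graph isomorphism: lower bounds and symmetrization. -/

namespace Pool.Agent.H550R2.SymGI

open Pool.Agent.H545R2 Pool.Agent.H545R2.SB Finset

/-- all degrees are at most nine -/
def Deg9 {V : Type*} (G : SimpleGraph V) : Prop := ∀ v, (G.neighborSet v).ncard ≤ 9

theorem deg9_comap {V : Type*} {M z : ℕ} (π : Fin 35 → Equiv.Perm (Fin M))
    (β : Nd M → ZMod 2) (Θ : V ≃ CV M z) : Deg9 ((CG π β z).comap Θ) := by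
  classical
  intro v
  have h1 : ((CG π β z).comap Θ).neighborSet v = Θ ⁻¹' ((CG π β z).neighborSet (Θ v)) := rfl
  rw [h1, Set.ncard_preimage_of_injective_subset_range Θ.injective
    (by rw [Θ.surjective.range_eq]; exact Set.subset_univ _)]
  rw [Set.ncard_eq_toFinset_card']
  have h2 := deg_le π β z (Θ v)
  rw [← SimpleGraph.card_neighborFinset_eq_degree] at h2
  exact h2

theorem deg9_bot {V : Type*} : Deg9 (⊥ : SimpleGraph V) := by
  intro v
  have : (⊥ : SimpleGraph V).neighborSet v = ∅ := by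
    ext x
    simp
  rw [this, Set.ncard_empty]
  omega

theorem comapIso {V W : Type*} (G : SimpleGraph W) (Θ : V ≃ W) : Nonempty (G.comap Θ ≃g G) :=
  ⟨⟨Θ, Iff.rfl⟩⟩

theorem not_iso {M z : ℕ} (π : Fin 35 → Equiv.Perm (Fin M)) (v : Nd M) :
    ¬ Nonempty (CG π (Pi.single v 1) z ≃g CG π 0 z) := by
  rintro ⟨f⟩
  have h := parity π f
  rw [Finset.sum_pi_single'] at h
  simp at h

/-- all products of even permutations of the blocks extend to automorphisms -/
theorem sym_all {V : Type*} {Gt : Type*} (N : Net V Gt) {r : ℕ} (blk : Fin r → (Fin 5 ↪ V))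
    (hd : Pairwise fun i j => Disjoint (Set.range (blk i)) (Set.range (blk j)))
    (hsym : ∀ i, N.SymOn (blk i)) (γ : Fin r → alternatingGroup (Fin 5)) :
    ∃ φ, N.IsAut (bp (blkE blk hd) γ) φ := by
  classical
  let H : Subgroup (Fin r → alternatingGroup (Fin 5)) :=
    { carrier := {γ | ∃ φ, N.IsAut (bp (blkE blk hd) γ) φ}
      one_mem' := ⟨1, by rw [bp_one]; exact Net.IsAut.one⟩
      mul_mem' := by
        rintro a b ⟨φ, h1⟩ ⟨ψ, h3⟩
        exact ⟨φ * ψ, by rw [bp_mul]; exact h1.mul h3⟩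
      inv_mem' := by
        rintro a ⟨φ, h1⟩
        exact ⟨φ⁻¹, by rw [bp_inv]; exact h1.inv⟩ }
  have hmem : γ ∈ H := by
    apply Subgroup.pi_mem_of_mulSingle_mem
    intro i
    apply hsym i (γ i) (γ i).2 (bp (blkE blk hd) (Pi.mulSingle i (γ i)))
    · intro c
      have := bp_apply (blkE blk hd) (Pi.mulSingle i (γ i)) i c
      rw [Pi.mulSingle_eq_same] at this
      exact this
    · intro v hv
      exact blkE_range blk hd i (γ i) v hv
  exact hmem

/-- identification of the vertices compatible with the blocks -/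
theorem exists_theta {V : Type*} [Fintype V] {r : ℕ} (blk : Fin r × Fin 5 ↪ V) {M z : ℕ}
    (hz : Fintype.card V = 700 * M + z) (ei : Pl M ↪ Fin r) :
    ∃ Θ : V ≃ CV M z, ∀ p l, Θ (blk (ei p, cd l)) = Sum.inl (p, l) := by
  have hcard : Fintype.card V = Fintype.card (CV M z) := by
    unfold CV
    rw [Fintype.card_sum, Fintype.card_prod, card_Pl, Fintype.card_fin]
    have h4 : Fintype.card W4 = 4 := rfl
    rw [h4, hz]
    ring
  obtain ⟨Θ, hΘ⟩ := extend_two (A := Pl M × W4) (V := V) (W := CV M z)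
    (fun q => blk (ei q.1, cd q.2)) (fun q => Sum.inl q)
    (by
      rintro ⟨b, l⟩ ⟨b', l'⟩ h
      have h1 := blk.injective h
      simp only [Prod.mk.injEq] at h1
      rw [ei.injective h1.1, cd_inj h1.2])
    (by
      intro q q' h
      exact Sum.inl_injective h) hcard
  exact ⟨Θ, fun p l => hΘ (p, l)⟩

/-- **Lower bound for one graph.** -/
theorem lower_single (V : Type) [Fintype V] (r : ℕ) (hr : 5 * r ≤ Fintype.card V) :
    ∃ H : SimpleGraph V, Deg9 H ∧ ∀ (Gt : Type) [Fintype Gt] (N : Net V Gt),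
      (∀ G : SimpleGraph V, Deg9 G → (N.val G N.out = true ↔ Nonempty (G ≃g H))) →
      ∀ blk : Fin r → (Fin 5 ↪ V),
        (Pairwise fun i j => Disjoint (Set.range (blk i)) (Set.range (blk j))) →
        (∀ i, N.SymOn (blk i)) → 5 ^ (r / 7000) ≤ Fintype.card Gt := by
  classical
  set m := r / 7000 with hmdef
  have hGt : ∀ (Gt : Type) [Fintype Gt] (N : Net V Gt), 0 < Fintype.card Gt :=
    fun Gt _ N => Fintype.card_pos_iff.2 ⟨N.out⟩
  rcases Nat.eq_zero_or_pos m with h | hm0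
  · refine ⟨⊥, deg9_bot, ?_⟩
    intro Gt _ N _ _ _ _
    rw [h, pow_zero]
    exact hGt Gt N
  have hM : 0 < 40 * m := by omega
  have hMr : 175 * (40 * m) ≤ r := by
    have := Nat.div_mul_le_self r 7000
    omega
  obtain ⟨π, hπ⟩ := exists_joining (40 * m) hM
  obtain ⟨ei⟩ : Nonempty (Pl (40 * m) ↪ Fin r) := by
    apply Function.Embedding.nonempty_of_card_le
    rw [card_Pl, Fintype.card_fin]
    exact hMr
  obtain ⟨z, hz⟩ : ∃ z, Fintype.card V = 700 * (40 * m) + z :=
    ⟨Fintype.card V - 700 * (40 * m), by omega⟩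
  have hcard : Fintype.card V = Fintype.card (CV (40 * m) z) := by
    unfold CV
    rw [Fintype.card_sum, Fintype.card_prod, card_Pl, Fintype.card_fin]
    have h4 : Fintype.card W4 = 4 := rfl
    rw [h4, hz]
    ring
  obtain ⟨Θ0⟩ : Nonempty (V ≃ CV (40 * m) z) := Fintype.card_eq.1 hcard
  refine ⟨(CG π 0 z).comap Θ0, deg9_comap π 0 Θ0, ?_⟩
  intro Gt _ N hN blk hd hs
  by_contra hcon
  rw [not_le] at hcon
  obtain ⟨Θ, hΘ⟩ := exists_theta (blkE blk hd) hz ei
  obtain ⟨v, hv⟩ := core (U := Empty) π (blkE blk hd) N (sym_all N blk hd hs) hM hπ m le_rfl hcon ei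
    (Θ.trans (Equiv.sumEmpty _ _).symm)
    (by intro p l; rw [Equiv.trans_apply, hΘ]; rfl) ⊥
  have hre : ∀ β : Nd (40 * m) → ZMod 2, (CG π β z ⊕g (⊥ : SimpleGraph Empty)).comap
      (Θ.trans (Equiv.sumEmpty _ _).symm) = (CG π β z).comap Θ := by
    intro β
    ext a b
    rfl
  rw [hre, hre] at hv
  obtain ⟨f0⟩ := comapIso (CG π 0 z) Θ0
  have h1 : N.val ((CG π 0 z).comap Θ) N.out = true := by
    rw [hN _ (deg9_comap π 0 Θ)]
    obtain ⟨f1⟩ := comapIso (CG π 0 z) Θ
    exact ⟨f1.trans f0.symm⟩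
  rw [h1] at hv
  obtain ⟨f2⟩ := (hN _ (deg9_comap π _ Θ)).1 hv.symm
  obtain ⟨f3⟩ := comapIso (CG π (Pi.single v 1) z) Θ
  exact not_iso π v ⟨(f3.symm.trans f2).trans f0⟩

/-- blocks of the first of two graphs -/
def fstBlk {V : Type*} (b : Fin 5 ↪ V) : Fin 5 ↪ V ⊕ V := b.trans Function.Embedding.inl

theorem fst_disj {V : Type*} {r : ℕ} {blk : Fin r → (Fin 5 ↪ V)}
    (hd : Pairwise fun i j => Disjoint (Set.range (blk i)) (Set.range (blk j))) :
    Pairwise fun i j => Disjoint (Set.range (fstBlk (blk i))) (Set.range (fstBlk (blk j))) := by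
  intro i j hij
  have h := hd hij
  show Disjoint _ _
  rw [Set.disjoint_left]
  rintro _ ⟨c, rfl⟩ ⟨c', hc'⟩
  exact Set.disjoint_left.1 h ⟨c, rfl⟩ ⟨c', Sum.inl_injective hc'⟩

/-- **Lower bound for pairs of graphs.** -/
theorem lower_pair (V Gt : Type) [Fintype V] [Fintype Gt] (N : Net (V ⊕ V) Gt)
    (hN : ∀ G H : SimpleGraph V, Deg9 G → Deg9 H →
      (N.val (G ⊕g H) N.out = true ↔ Nonempty (G ≃g H)))
    (r : ℕ) (blk : Fin r → (Fin 5 ↪ V))
    (hd : Pairwise fun i j => Disjoint (Set.range (blk i)) (Set.range (blk j)))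
    (hs : ∀ i, N.SymOn (fstBlk (blk i))) : 5 ^ (r / 7000) ≤ Fintype.card Gt := by
  classical
  by_contra hcon
  rw [not_le] at hcon
  set m := r / 7000 with hmdef
  have hGt : 0 < Fintype.card Gt := Fintype.card_pos_iff.2 ⟨N.out⟩
  have hm0 : 0 < m := by
    rcases Nat.eq_zero_or_pos m with h | h
    · rw [h] at hcon
      simp at hcon
      omega
    · exact h
  have hM : 0 < 40 * m := by omega
  have hMr : 175 * (40 * m) ≤ r := by
    have := Nat.div_mul_le_self r 7000
    omega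
  have hr : 5 * r ≤ Fintype.card V := by
    have := Fintype.card_le_of_embedding (blkE blk hd)
    rw [Fintype.card_prod, Fintype.card_fin, Fintype.card_fin] at this
    omega
  obtain ⟨π, hπ⟩ := exists_joining (40 * m) hM
  obtain ⟨ei⟩ : Nonempty (Pl (40 * m) ↪ Fin r) := by
    apply Function.Embedding.nonempty_of_card_le
    rw [card_Pl, Fintype.card_fin]
    exact hMr
  obtain ⟨z, hz⟩ : ∃ z, Fintype.card V = 700 * (40 * m) + z :=
    ⟨Fintype.card V - 700 * (40 * m), by omega⟩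
  obtain ⟨Θ, hΘ⟩ := exists_theta (blkE blk hd) hz ei
  let H : SimpleGraph V := (CG π 0 z).comap Θ
  obtain ⟨v, hv⟩ := core (U := V) π (blkE (fun i => fstBlk (blk i)) (fst_disj hd)) N
    (sym_all N _ (fst_disj hd) hs) hM hπ m le_rfl hcon ei
    (Equiv.sumCongr Θ (Equiv.refl V))
    (by
      intro p l
      show Sum.inl (Θ (blkE blk hd (ei p, cd l))) = _
      rw [hΘ]) H
  have hre : ∀ β : Nd (40 * m) → ZMod 2, (CG π β z ⊕g H).comap (Equiv.sumCongr Θ (Equiv.refl V)) =
      ((CG π β z).comap Θ) ⊕g H := by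
    intro β
    ext a b
    rcases a with a | a <;> rcases b with b | b <;> rfl
  rw [hre, hre] at hv
  have h1 : N.val (((CG π 0 z).comap Θ) ⊕g H) N.out = true := by
    rw [hN _ _ (deg9_comap π 0 Θ) (deg9_comap π 0 Θ)]
    exact ⟨SimpleGraph.Iso.refl⟩
  rw [h1] at hv
  obtain ⟨f2⟩ := (hN _ _ (deg9_comap π _ Θ) (deg9_comap π 0 Θ)).1 hv.symm
  obtain ⟨f3⟩ := comapIso (CG π (Pi.single v 1) z) Θ
  obtain ⟨f0⟩ := comapIso (CG π 0 z) Θ
  exact not_iso π v ⟨(f3.symm.trans f2).trans f0⟩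

/-- the value of a symmetrized network -/
theorem symNet_const {V Gt : Type*} [Fintype Gt] [DecidableEq Gt] {r : ℕ} (N : Net V Gt)
    (blk : Fin r × Fin 5 ↪ V) (X : SimpleGraph V) (b : Bool)
    (h : ∀ γ, N.val (X.comap (bp blk γ)) N.out = b) :
    (symNet N blk).val X (symNet N blk).out = b := by
  classical
  have h1 : ∀ γ, (symNet N blk).val X (Sum.inl (γ, none)) = !b := by
    intro γ
    rw [Net.val_none _ _ rfl, symNet_sum_none, symNet_val, h]
    show decide (b.toNat < 1) = _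
    cases b <;> simp
  have h0 : (symNet N blk).out = Sum.inr () := rfl
  rw [h0, Net.val_none _ _ rfl, symNet_sum_out]
  show decide (_ < Fintype.card (Fin r → alternatingGroup (Fin 5))) = _
  simp only [h1]
  rw [Finset.sum_const, Finset.card_univ]
  have hpos : 0 < Fintype.card (Fin r → alternatingGroup (Fin 5)) := Fintype.card_pos
  cases b
  · simp
  · simp only [Bool.not_true, Bool.toNat_false, smul_eq_mul, mul_zero, hpos, decide_true]

/-- **Symmetrization.** -/
theorem upper_pair (V Gt : Type) [Fintype V] [Fintype Gt] (N : Net (V ⊕ V) Gt) (hnand : N.IsNand)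
    (hN : ∀ G H : SimpleGraph V, (N.val (G ⊕g H) N.out = true ↔ Nonempty (G ≃g H)))
    (r : ℕ) (blk : Fin r → (Fin 5 ↪ V))
    (hd : Pairwise fun i j => Disjoint (Set.range (blk i)) (Set.range (blk j))) :
    ∃ (Gt' : Type) (_ : Fintype Gt') (N' : Net (V ⊕ V) Gt'), N'.IsNand ∧
      (∀ G H : SimpleGraph V, (N'.val (G ⊕g H) N'.out = true ↔ Nonempty (G ≃g H))) ∧
      (∀ i, N'.SymOn (fstBlk (blk i))) ∧
      Fintype.card Gt' = 60 ^ r * (Fintype.card Gt + 1) + 1 := by
  classical
  refine ⟨SG Gt r, inferInstance, symNet N (blkE (fun i => fstBlk (blk i)) (fst_disj hd)),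
    symNet_nand N _ hnand, ?_, symNet_sym N _ (fst_disj hd), card_SG⟩
  intro G H
  have key : (symNet N (blkE (fun i => fstBlk (blk i)) (fst_disj hd))).val (G ⊕g H)
      (symNet N (blkE (fun i => fstBlk (blk i)) (fst_disj hd))).out = decide (Nonempty (G ≃g H)) := by
    apply symNet_const
    intro γ
    have h1 : (G ⊕g H).comap (bp (blkE (fun i => fstBlk (blk i)) (fst_disj hd)) γ) =
        (G.comap (bp (blkE blk hd) γ)) ⊕g H := by
      have h2 : ∀ x : V, bp (blkE (fun i => fstBlk (blk i)) (fst_disj hd)) γ (Sum.inl x) =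
          Sum.inl (bp (blkE blk hd) γ x) := by
        intro x
        by_cases hx : x ∈ Set.range (blkE blk hd)
        · obtain ⟨⟨i, c⟩, rfl⟩ := hx
          rw [bp_apply]
          exact bp_apply (blkE (fun i => fstBlk (blk i)) (fst_disj hd)) γ i c
        · rw [bp_notMem _ _ hx, bp_notMem]
          rintro ⟨⟨i, c⟩, h⟩
          exact hx ⟨(i, c), Sum.inl_injective h⟩
      have h3 : ∀ x : V, bp (blkE (fun i => fstBlk (blk i)) (fst_disj hd)) γ (Sum.inr x) =
          Sum.inr x := by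
        intro x
        rw [bp_notMem]
        rintro ⟨⟨i, c⟩, h⟩
        exact absurd h (by
          show ¬ (Sum.inl (blk i c) : V ⊕ V) = Sum.inr x
          simp)
      ext a b
      rw [SimpleGraph.comap_adj]
      rcases a with a | a <;> rcases b with b | b
      · rw [h2, h2]; rfl
      · rw [h2, h3]; rfl
      · rw [h3, h2]; rfl
      · rw [h3, h3]; rfl
    rw [h1, Bool.eq_iff_iff, hN, decide_eq_true_eq]
    obtain ⟨f⟩ := comapIso G (bp (blkE blk hd) γ)
    exact ⟨fun ⟨g⟩ => ⟨f.symm.trans g⟩, fun ⟨g⟩ => ⟨f.trans g⟩⟩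
  rw [key, decide_eq_true_eq]

end Pool.Agent.H550R2.SymGI
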