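import Pool.Agent.H550R2.SymGI.Parity

set_option autoImplicit false
set_option linter.unusedSectionVars false

/-! The group of edge sets acts on the charged graphs; networks that are symmetric on many blocks
do not see the total charge. -/

namespace Pool.Agent.H550R2.SymGI

open Pool.Agent.H545R2 Pool.Agent.H545R2.SB Finset

variable {M : ℕ} (π : Fin 35 → Equiv.Perm (Fin M))

/-- translation at a place -/
def tauP (y : Ed M → ZMod 2) : Pl M → W4
  | Sum.inl v => dl π y v
  | Sum.inr e => (0, y e)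

theorem tauP_add (y y' : Ed M → ZMod 2) (b : Pl M) :
    tauP π (y + y') b = tauP π y b + tauP π y' b := by
  rcases b with v | e
  · simp only [tauP, dl, Pi.add_apply, Prod.mk_add_mk, Prod.mk.injEq, and_true]
    ring
  · simp [tauP]

theorem tauP_avoid {S : Finset (Pl M)} {y : Ed M → ZMod 2} (h : Avoid π S y) (b : Pl M)
    (hb : b ∈ S) : tauP π y b = 0 := by
  rcases b with v | e
  · simp only [tauP, dl]
    rw [h.2 v hb 1, h.2 v hb 2, add_zero]
    rfl
  · simp only [tauP]
    rw [h.1 e hb]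
    rfl

/-- the action on vertices -/
def actC {z : ℕ} (y : Ed M → ZMod 2) : CV M z → CV M z
  | Sum.inl (b, l) => Sum.inl (b, l + tauP π y b)
  | Sum.inr j => Sum.inr j

theorem w4_add_self (l : W4) : l + l = 0 := by
  revert l
  decide

theorem actC_actC {z : ℕ} (y : Ed M → ZMod 2) (x : CV M z) : actC π y (actC π y x) = x := by
  rcases x with ⟨b, l⟩ | j
  · simp only [actC, Sum.inl.injEq, Prod.mk.injEq, true_and]
    rw [add_assoc, w4_add_self, add_zero]
  · rfl

theorem ww_act' : ∀ (b y0 y1 y2 : ZMod 2) (l : W4) (s : Fin 3),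
    ww (b + (y0 + y1 + y2)) (l + (y1 + y2, y1)) s =
      ww b l s + (![y0, y1, y2] : Fin 3 → ZMod 2) s := by
  unfold ww
  decide

theorem inc_act {β : Nd M → ZMod 2} (y : Ed M → ZMod 2) {v : Nd M} {l : W4} {e : Ed M} {k : W4}
    (h : Inc π β v l e k) : Inc π (β + bd π y) v (l + dl π y v) e (k + (0, y e)) := by
  obtain ⟨s, h1, h2⟩ := h
  refine ⟨s, h1, ?_⟩
  have h4 := ww_act' (β v) (y (esl π v 0)) (y (esl π v 1)) (y (esl π v 2)) l s
  have h5 : (β + bd π y) v = β v + (y (esl π v 0) + y (esl π v 1) + y (esl π v 2)) := by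
    rw [Pi.add_apply]
    unfold bd
    rw [Fin.sum_univ_three]
  have h6 : (![y (esl π v 0), y (esl π v 1), y (esl π v 2)] : Fin 3 → ZMod 2) s = y (esl π v s) := by
    fin_cases s <;> rfl
  rw [h5]
  unfold dl
  rw [h4, h2, h6, h1]
  rfl

theorem CG_act' {β : Nd M → ZMod 2} {z : ℕ} (y : Ed M → ZMod 2) {u w : CV M z}
    (h : (CG π β z).Adj u w) : (CG π (β + bd π y) z).Adj (actC π y u) (actC π y w) := by
  rcases u with ⟨v | e, l⟩ | j <;> rcases w with ⟨v' | e', l'⟩ | j'
  · obtain ⟨h1, h2⟩ := (adj_nn π).1 h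
    subst h1
    exact (adj_nn π).2 ⟨rfl, fun h => h2 (add_right_cancel h)⟩
  · exact inc_act π y h
  · exact absurd h (fun h => h)
  · exact inc_act π y (v := v') (l := l') (e := e) (k := l) h
  · obtain ⟨h1, h2⟩ := (adj_ee π).1 h
    subst h1
    exact (adj_ee π).2 ⟨rfl, fun h => h2 (add_right_cancel h)⟩
  · exact absurd h (fun h => h)
  · exact absurd h (fun h => h)
  · exact absurd h (fun h => h)
  · exact absurd h (fun h => h)

theorem CG_act {β : Nd M → ZMod 2} {z : ℕ} (y : Ed M → ZMod 2) (u w : CV M z) :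
    (CG π (β + bd π y) z).Adj (actC π y u) (actC π y w) ↔ (CG π β z).Adj u w := by
  constructor
  · intro h
    have h' := CG_act' π y h
    rw [actC_actC, actC_actC] at h'
    have e : β + bd π y + bd π y = β := by
      ext v
      simp only [Pi.add_apply]
      rw [add_assoc, CharTwo.add_self_eq_zero, add_zero]
    rwa [e] at h'
  · exact CG_act' π y

/-- Pairs distinguishing two charges at the node `v`: a vertex of the node and a vertex of an
edge. -/
theorem CG_diff {β : Nd M → ZMod 2} {z : ℕ} (v : Nd M) {u w : CV M z}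
    (h : ¬ ((CG π β z).Adj u w ↔ (CG π (β + Pi.single v 1) z).Adj u w)) :
    (∃ l e k, u = Sum.inl (Sum.inl v, l) ∧ w = Sum.inl (Sum.inr e, k)) ∨
      (∃ l e k, w = Sum.inl (Sum.inl v, l) ∧ u = Sum.inl (Sum.inr e, k)) := by
  have hinc : ∀ v' l e k, ¬ (Inc π β v' l e k ↔ Inc π (β + Pi.single v 1) v' l e k) → v' = v := by
    intro v' l e k h
    by_contra hne
    apply h
    unfold Inc
    rw [Pi.add_apply, Pi.single_eq_of_ne hne, add_zero]
  rcases u with ⟨v' | e, l⟩ | j <;> rcases w with ⟨v'' | e', l'⟩ | j'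
  · exact absurd Iff.rfl h
  · left
    have := hinc v' l e' l' h
    subst this
    exact ⟨l, e', l', rfl, rfl⟩
  · exact absurd Iff.rfl h
  · right
    have := hinc v'' l' e l h
    subst this
    exact ⟨l', e, l, rfl, rfl⟩
  · exact absurd Iff.rfl h
  · exact absurd Iff.rfl h
  · exact absurd Iff.rfl h
  · exact absurd Iff.rfl h
  · exact absurd Iff.rfl h

theorem CG_moves {β : Nd M → ZMod 2} {z : ℕ} (v : Nd M) {u w : CV M z}
    (h : ¬ ((CG π β z).Adj u w ↔ (CG π (β + Pi.single v 1) z).Adj u w))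
    (y : Ed M → ZMod 2) (hy : y (esl π v 1) ≠ 0) :
    s(actC π y u, actC π y w) ≠ s(u, w) := by
  have hmv : ∀ l, l + dl π y v ≠ l := by
    intro l hl
    apply hy
    have := congrArg Prod.snd hl
    simp only [dl, Prod.snd_add] at this
    simpa using this
  have key : ∀ l e k, s(actC π y (Sum.inl (Sum.inl v, l) : CV M z),
      actC π y (Sum.inl (Sum.inr e, k))) ≠ s(Sum.inl (Sum.inl v, l), Sum.inl (Sum.inr e, k)) := by
    intro l e k heq
    rw [Sym2.eq_iff] at heq
    rcases heq with ⟨h1, -⟩ | ⟨h1, -⟩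
    · simp only [actC, tauP, Sum.inl.injEq, Prod.mk.injEq, true_and] at h1
      exact hmv l h1
    · simp [actC] at h1
  rcases CG_diff π v h with ⟨l, e, k, rfl, rfl⟩ | ⟨l, e, k, rfl, rfl⟩
  · exact key l e k
  · intro heq
    apply key l e k
    rw [Sym2.eq_swap, heq, Sym2.eq_swap]

theorem card_Pl (M : ℕ) : Fintype.card (Pl M) = 175 * M := by
  unfold Pl Nd Ed
  simp only [Fintype.card_sum, Fintype.card_prod, Fintype.card_fin]
  ring

/-- **Core.** A small network that is symmetric on `7000 m` blocks has the same value on two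
charged graphs with different total charge. -/
theorem core {V U Gt : Type*} [Fintype Gt] {r : ℕ} (blk : Fin r × Fin 5 ↪ V) (N : Net V Gt)
    (hsym : ∀ γ : Fin r → alternatingGroup (Fin 5), ∃ φ, N.IsAut (bp blk γ) φ)
    (hM : 0 < M)
    (hπ : ∀ A B : Finset (Fin M), M ≤ 5 * A.card → M ≤ 5 * B.card → ∃ j, ∃ a ∈ A, π j a ∈ B)
    (m : ℕ) (hm : 40 * m ≤ M) (hcard : Fintype.card Gt < 5 ^ m) (ei : Pl M ↪ Fin r) {z : ℕ}
    (Θ : V ≃ CV M z ⊕ U)
    (hΘ : ∀ p l, Θ (blk (ei p, cd l)) = Sum.inl (Sum.inl (p, l))) (K : SimpleGraph U) :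
    ∃ v, N.val ((CG π 0 z ⊕g K).comap Θ) N.out =
      N.val ((CG π (Pi.single v 1) z ⊕g K).comap Θ) N.out := by
  classical
  let γ : (Ed M → ZMod 2) → (Fin r → alternatingGroup (Fin 5)) := fun y =>
    Function.extend ei (fun b => trA (tauP π y b)) 1
  have hγ : ∀ y b, γ y (ei b) = trA (tauP π y b) := fun y b => ei.injective.extend_apply _ _ b
  have hγ' : ∀ y j, (¬ ∃ b, ei b = j) → γ y j = 1 := fun y j h => Function.extend_apply' _ _ j h
  have hγadd : ∀ y y', γ (y + y') = γ y * γ y' := by
    intro y y'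
    ext1 j
    rw [Pi.mul_apply]
    by_cases hj : ∃ b, ei b = j
    · obtain ⟨b, rfl⟩ := hj
      rw [hγ, hγ, hγ, tauP_add, trA_add]
    · rw [hγ' _ j hj, hγ' _ j hj, hγ' _ j hj, one_mul]
  let P : (Ed M → ZMod 2) → Equiv.Perm V := fun y => bp blk (γ y)
  have hPadd : ∀ y y', P (y + y') = P y * P y' := by
    intro y y'
    show bp blk (γ (y + y')) = _
    rw [hγadd, bp_mul]
  -- the action on `CV ⊕ U`
  let A : (Ed M → ZMod 2) → CV M z ⊕ U → CV M z ⊕ U := fun y => Sum.map (actC π y) id
  have hΘP : ∀ y x, Θ (P y x) = A y (Θ x) := by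
    intro y x
    by_cases h : ∃ b l, x = blk (ei b, cd l)
    · obtain ⟨b, l, rfl⟩ := h
      have h1 : P y (blk (ei b, cd l)) = blk (ei b, cd (l + tauP π y b)) := by
        show bp blk (γ y) _ = _
        rw [bp_apply, hγ]
        show blk (ei b, tr (tauP π y b) (cd l)) = _
        rw [tr_cd]
      rw [h1, hΘ, hΘ]
      rfl
    · have h1 : P y x = x := by
        show bp blk (γ y) x = x
        by_cases hx : x ∈ Set.range blk
        · obtain ⟨⟨j, c⟩, rfl⟩ := hx
          rw [bp_apply]
          by_cases hj : ∃ b, ei b = j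
          · obtain ⟨b, rfl⟩ := hj
            rcases cd_surj c with rfl | ⟨l, rfl⟩
            · rw [hγ]
              show blk (ei b, tr (tauP π y b) 4) = _
              rw [tr_four]
            · exact absurd ⟨b, l, rfl⟩ h
          · rw [hγ' y j hj]
            rfl
        · exact bp_notMem blk _ hx
      rw [h1]
      rcases hx : Θ x with (⟨p, l⟩ | j) | u
      · exfalso
        apply h
        exact ⟨p, l, Θ.injective (by rw [hΘ, hx])⟩
      · rfl
      · rfl
  let G : (Nd M → ZMod 2) → SimpleGraph V := fun β => (CG π β z ⊕g K).comap Θ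
  have hadj : ∀ β u w, (G β).Adj u w ↔ (CG π β z ⊕g K).Adj (Θ u) (Θ w) := fun _ _ _ => Iff.rfl
  have hAact : ∀ β y (a b : CV M z ⊕ U), (CG π (β + bd π y) z ⊕g K).Adj (A y a) (A y b) ↔
      (CG π β z ⊕g K).Adj a b := by
    rintro β y (a | a) (b | b)
    · simp only [A, Sum.map_inl, SimpleGraph.sum_adj_inl]
      exact CG_act π y a b
    · simp [A, SimpleGraph.sum]
    · simp [A, SimpleGraph.sum]
    · simp only [A, Sum.map_inr, SimpleGraph.sum_adj_inr, id]
  have hmain := main_abstract (N := N) π hM hπ m hm P hPadd G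
    (by
      intro β y u w
      rw [hadj, hadj, hΘP, hΘP]
      exact hAact β y _ _)
    (by
      intro β v u w h y hy heq
      rw [hadj, hadj] at h
      have heq' : s(A y (Θ u), A y (Θ w)) = s(Θ u, Θ w) := by
        rw [← hΘP, ← hΘP]
        exact congrArg (Sym2.map Θ) heq
      rcases hu : Θ u with a | a <;> rcases hw : Θ w with b | b <;>
        rw [hu, hw] at h heq'
      · rw [SimpleGraph.sum_adj_inl, SimpleGraph.sum_adj_inl] at h
        apply CG_moves π v h y hy
        rw [Sym2.eq_iff] at heq' ⊢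
        rcases heq' with ⟨h1, h2⟩ | ⟨h1, h2⟩
        · exact Or.inl ⟨Sum.inl_injective h1, Sum.inl_injective h2⟩
        · exact Or.inr ⟨Sum.inl_injective h1, Sum.inl_injective h2⟩
      · exact h Iff.rfl
      · exact h Iff.rfl
      · exact h Iff.rfl)
    (by
      intro g
      let H : Subgroup (Fin r → alternatingGroup (Fin 5)) :=
        { carrier := {γ | ∃ φ, N.IsAut (bp blk γ) φ ∧ φ g = g}
          one_mem' := ⟨1, by rw [bp_one]; exact Net.IsAut.one, rfl⟩
          mul_mem' := by
            rintro a b ⟨φ, h1, h2⟩ ⟨ψ, h3, h4⟩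
            exact ⟨φ * ψ, by rw [bp_mul]; exact h1.mul h3, by
              rw [Equiv.Perm.mul_apply, h4, h2]⟩
          inv_mem' := by
            rintro a ⟨φ, h1, h2⟩
            exact ⟨φ⁻¹, by rw [bp_inv]; exact h1.inv, by
              rw [Equiv.Perm.inv_eq_iff_eq]; exact h2.symm⟩ }
      choose φ hφ using hsym
      obtain ⟨S, hS1, hS2⟩ := support_A5 H (fun γ => φ γ g) (by
        intro a b hab
        refine ⟨(φ a)⁻¹ * φ b, ?_, ?_⟩
        · rw [bp_mul, bp_inv]
          exact (hφ a).inv.mul (hφ b)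
        · rw [Equiv.Perm.mul_apply, ← hab, perm_inv_apply]) m hcard
      refine ⟨Finset.univ.filter (fun b : Pl M => ei b ∈ S), ?_, ?_⟩
      · refine lt_of_le_of_lt ?_ hS1
        apply Finset.card_le_card_of_injOn ei
        · intro b hb
          simpa using hb
        · exact ei.injective.injOn
      · intro y hy
        have hmem : γ y ∈ H := by
          apply Subgroup.pi_mem_of_mulSingle_mem
          intro j
          by_cases hj : j ∈ S
          · have : γ y j = 1 := by
              by_cases hjb : ∃ b, ei b = j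
              · obtain ⟨b, rfl⟩ := hjb
                rw [hγ, tauP_avoid π hy b, trA_zero]
                simpa using hj
              · exact hγ' y j hjb
            rw [this, Pi.mulSingle_one]
            exact H.one_mem
          · exact hS2 j hj _
        exact hmem)
  exact hmain

end Pool.Agent.H550R2.SymGI
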