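import Pool.Agent.H545R2.SymFinal

set_option autoImplicit false
set_option linter.unusedSectionVars false

/-! Graphs encoding parity charges of the base graph: the total charge is an isomorphism
invariant, single charges are not. -/

namespace Pool.Agent.H550R2.SymGI

open Pool.Agent.H545R2 Pool.Agent.H545R2.SB Finset

variable {M : ℕ} (π : Fin 35 → Equiv.Perm (Fin M))

/-- Places: nodes and edges of the base graph. -/
abbrev Pl (M : ℕ) := Nd M ⊕ Ed M

/-- Four elements at every place. -/
abbrev W4 := ZMod 2 × ZMod 2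

/-- Vertices: four for every place, and `z` isolated ones. -/
abbrev CV (M z : ℕ) := (Pl M × W4) ⊕ Fin z

/-- incidence between a vertex of a node and a vertex of an edge -/
def Inc (β : Nd M → ZMod 2) (v : Nd M) (l : W4) (e : Ed M) (k : W4) : Prop :=
  ∃ s : Fin 3, esl π v s = e ∧ ww (β v) l s = k.2

/-- the adjacency relation -/
def CAdj (β : Nd M → ZMod 2) (z : ℕ) : CV M z → CV M z → Prop
  | Sum.inl (Sum.inl v, l), Sum.inl (Sum.inl v', l') => v = v' ∧ l ≠ l'
  | Sum.inl (Sum.inr e, k), Sum.inl (Sum.inr e', k') => e = e' ∧ k ≠ k'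
  | Sum.inl (Sum.inl v, l), Sum.inl (Sum.inr e, k) => Inc π β v l e k
  | Sum.inl (Sum.inr e, k), Sum.inl (Sum.inl v, l) => Inc π β v l e k
  | _, _ => False

/-- The graph with charges `β`. -/
def CG (β : Nd M → ZMod 2) (z : ℕ) : SimpleGraph (CV M z) where
  Adj := CAdj π β z
  symm := by
    constructor
    rintro (⟨v | e, l⟩ | j) (⟨v' | e', l'⟩ | j') h <;> simp only [CAdj] at h ⊢
    · exact ⟨h.1.symm, h.2.symm⟩
    · exact h
    · exact h
    · exact ⟨h.1.symm, h.2.symm⟩
  loopless := by
    constructor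
    rintro (⟨v | e, l⟩ | j) h <;> simp only [CAdj] at h
    · exact h.2 rfl
    · exact h.2 rfl

theorem adj_nn {β : Nd M → ZMod 2} {z : ℕ} {v v' : Nd M} {l l' : W4} :
    (CG π β z).Adj (Sum.inl (Sum.inl v, l)) (Sum.inl (Sum.inl v', l')) ↔ v = v' ∧ l ≠ l' :=
  Iff.rfl

theorem adj_ee {β : Nd M → ZMod 2} {z : ℕ} {e e' : Ed M} {k k' : W4} :
    (CG π β z).Adj (Sum.inl (Sum.inr e, k)) (Sum.inl (Sum.inr e', k')) ↔ e = e' ∧ k ≠ k' :=
  Iff.rfl

theorem adj_ne {β : Nd M → ZMod 2} {z : ℕ} {v : Nd M} {e : Ed M} {l k : W4} :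
    (CG π β z).Adj (Sum.inl (Sum.inl v, l)) (Sum.inl (Sum.inr e, k)) ↔ Inc π β v l e k :=
  Iff.rfl

/-- the other ends are different: the three edges at a node are different -/
theorem esl_inj (v : Nd M) : Function.Injective (esl π v) := by
  intro s s' h
  obtain ⟨i, c⟩ := v
  have h3 : ∀ t : Fin 3, t = 0 ∨ t = 1 ∨ t = 2 := by decide
  have hc : c ≠ c - 1 := by
    intro h
    have : (1 : Fin 70) = 0 := by
      have h2 : c - (c - 1) = 0 := by rw [← h]; exact sub_self c
      rwa [sub_sub_cancel] at h2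
    exact absurd this (by decide)
  have e0 : esl π (i, c) 0 = Sum.inl (i, c) := rfl
  have e1 : esl π (i, c) 1 = Sum.inl (i, c - 1) := rfl
  have e2 : ∃ x, esl π (i, c) 2 = Sum.inr x := by
    unfold esl
    by_cases h : c.val < 35
    · exact ⟨_, by simp only [kapInv, dif_pos h]; rfl⟩
    · exact ⟨_, by simp only [kapInv, dif_neg h]; rfl⟩
  obtain ⟨x, e2⟩ := e2
  rcases h3 s with rfl | rfl | rfl <;> rcases h3 s' with rfl | rfl | rfl
  · rfl
  · rw [e0, e1] at h
    simp only [Sum.inl.injEq, Prod.mk.injEq, true_and] at h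
    exact absurd h hc
  · rw [e0, e2] at h
    exact absurd h (by simp)
  · rw [e0, e1] at h
    simp only [Sum.inl.injEq, Prod.mk.injEq, true_and] at h
    exact absurd h.symm hc
  · rfl
  · rw [e1, e2] at h
    exact absurd h (by simp)
  · rw [e0, e2] at h
    exact absurd h (by simp)
  · rw [e1, e2] at h
    exact absurd h (by simp)
  · rfl

theorem card_ww : ∀ (b a : ZMod 2) (s : Fin 3), Fintype.card {l : W4 // ww b l s = a} = 2 := by
  unfold ww
  decide

theorem card_other : ∀ l : W4, Fintype.card {l' : W4 // l' ≠ l} = 3 := by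
  decide

theorem ww_sum : ∀ (b : ZMod 2) (l : W4), ∑ s, ww b l s = b := by
  unfold ww
  decide

theorem exists_ww : ∀ (b a : ZMod 2) (s : Fin 3), ∃ l : W4, ww b l s = a := by
  unfold ww
  decide

open Classical in
/-- vertices of nodes have degree nine -/
theorem deg_node (β : Nd M → ZMod 2) (z : ℕ) (v : Nd M) (l : W4) :
    (CG π β z).degree (Sum.inl (Sum.inl v, l)) = 9 := by
  let f : {l' : W4 // l' ≠ l} ⊕ (Fin 3 × ZMod 2) → CV M z := fun x => match x with
    | Sum.inl l' => Sum.inl (Sum.inl v, l'.1)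
    | Sum.inr (s, d) => Sum.inl (Sum.inr (esl π v s), (d, ww (β v) l s))
  have hf : Function.Injective f := by
    rintro (⟨a, ha⟩ | ⟨s, d⟩) (⟨a', ha'⟩ | ⟨s', d'⟩) h <;>
      simp only [f, Sum.inl.injEq, Prod.mk.injEq, true_and, reduceCtorEq, false_and] at h
    · subst h; rfl
    · obtain ⟨h1, h2, -⟩ := h
      rw [Sum.inr.injEq] at h1
      rw [esl_inj π v h1, h2]
  have hN : (CG π β z).neighborFinset (Sum.inl (Sum.inl v, l)) = Finset.univ.image f := by
    ext x
    rw [SimpleGraph.mem_neighborFinset, Finset.mem_image]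
    rcases x with ⟨v' | e, l'⟩ | j
    · rw [adj_nn]
      constructor
      · rintro ⟨rfl, h⟩
        exact ⟨Sum.inl ⟨l', h.symm⟩, Finset.mem_univ _, rfl⟩
      · rintro ⟨(⟨a, ha⟩ | ⟨s, d⟩), -, h⟩
        · simp only [f, Sum.inl.injEq, Prod.mk.injEq] at h
          exact ⟨h.1, by rw [← h.2]; exact ha.symm⟩
        · simp [f] at h
    · rw [adj_ne]
      constructor
      · rintro ⟨s, rfl, h⟩
        refine ⟨Sum.inr (s, l'.1), Finset.mem_univ _, ?_⟩
        simp only [f, h]
      · rintro ⟨(⟨a, ha⟩ | ⟨s, d⟩), -, h⟩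
        · simp [f] at h
        · simp only [f, Sum.inl.injEq, Prod.mk.injEq, Sum.inr.injEq] at h
          exact ⟨s, h.1, by rw [← h.2]⟩
    · constructor
      · intro h
        exact absurd h (fun h => h)
      · rintro ⟨(⟨a, ha⟩ | ⟨s, d⟩), -, h⟩ <;> simp [f] at h
  rw [← SimpleGraph.card_neighborFinset_eq_degree, hN, Finset.card_image_of_injective _ hf,
    Finset.card_univ, Fintype.card_sum, card_other, Fintype.card_prod, Fintype.card_fin, ZMod.card]

open Classical in
/-- vertices of edges have degree seven -/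
theorem deg_edge (β : Nd M → ZMod 2) (z : ℕ) (e : Ed M) (k : W4) :
    (CG π β z).degree (Sum.inl (Sum.inr e, k)) = 7 := by
  let T := {k' : W4 // k' ≠ k} ⊕
    (Σ b : Bool, {l : W4 // ww (β (kap π (e, b)).1) l (kap π (e, b)).2 = k.2})
  let f : T → CV M z := fun x => match x with
    | Sum.inl k' => Sum.inl (Sum.inr e, k'.1)
    | Sum.inr ⟨b, l⟩ => Sum.inl (Sum.inl (kap π (e, b)).1, l.1)
  have hkap : ∀ b, kapInv π (kap π (e, b)) = (e, b) := fun b => kapInv_kap π (e, b)
  have hne : (kap π (e, false)).1 ≠ (kap π (e, true)).1 := by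
    intro h
    have h1 := hkap false
    have h2 := hkap true
    have h3 : esl π (kap π (e, false)).1 (kap π (e, false)).2 = e := by
      unfold esl; rw [Prod.mk.eta, h1]
    have h4 : esl π (kap π (e, false)).1 (kap π (e, true)).2 = e := by
      unfold esl; rw [h, Prod.mk.eta, h2]
    have h5 := esl_inj π _ (h3.trans h4.symm)
    have h6 : kap π (e, false) = kap π (e, true) := Prod.ext h h5
    rw [h6, h2] at h1
    simp at h1
  have hf : Function.Injective f := by
    rintro (⟨a, ha⟩ | ⟨b, l, hl⟩) (⟨a', ha'⟩ | ⟨b', l', hl'⟩) h <;>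
      simp only [f, Sum.inl.injEq, Prod.mk.injEq, true_and, reduceCtorEq, false_and] at h
    · subst h; rfl
    · obtain ⟨h1, h2⟩ := h
      have hb : b = b' := by
        cases b <;> cases b'
        · rfl
        · exact absurd h1 hne
        · exact absurd h1.symm hne
        · rfl
      subst hb
      subst h2
      rfl
  have hN : (CG π β z).neighborFinset (Sum.inl (Sum.inr e, k)) = Finset.univ.image f := by
    ext x
    rw [SimpleGraph.mem_neighborFinset, Finset.mem_image]
    rcases x with ⟨v' | e', l'⟩ | j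
    · constructor
      · intro h
        obtain ⟨s, h1, h2⟩ : Inc π β v' l' e k := h
        have h3 : kap π (e, (kapInv π (v', s)).2) = (v', s) := by
          rw [← h1]
          exact kap_kapInv π (v', s)
        refine ⟨Sum.inr ⟨(kapInv π (v', s)).2, ⟨l', ?_⟩⟩, Finset.mem_univ _, ?_⟩
        · rw [h3]; exact h2
        · simp only [f, h3]
      · rintro ⟨(⟨a, ha⟩ | ⟨b, l, hl⟩), -, h⟩
        · simp [f] at h
        · simp only [f, Sum.inl.injEq, Prod.mk.injEq] at h
          show Inc π β v' l' e k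
          refine ⟨(kap π (e, b)).2, ?_, ?_⟩
          · unfold esl; rw [← h.1, Prod.mk.eta, hkap]
          · rw [← h.1, ← h.2]; exact hl
    · rw [adj_ee]
      constructor
      · rintro ⟨rfl, h⟩
        exact ⟨Sum.inl ⟨l', h.symm⟩, Finset.mem_univ _, rfl⟩
      · rintro ⟨(⟨a, ha⟩ | ⟨b, l, hl⟩), -, h⟩
        · simp only [f, Sum.inl.injEq, Prod.mk.injEq, Sum.inr.injEq] at h
          exact ⟨h.1, by rw [← h.2]; exact ha.symm⟩
        · simp [f] at h
    · constructor
      · intro h
        exact absurd h (fun h => h)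
      · rintro ⟨(⟨a, ha⟩ | ⟨b, l, hl⟩), -, h⟩ <;> simp [f] at h
  rw [← SimpleGraph.card_neighborFinset_eq_degree, hN, Finset.card_image_of_injective _ hf,
    Finset.card_univ, Fintype.card_sum, card_other, Fintype.card_sigma]
  simp only [card_ww]
  rfl

open Classical in
theorem deg_iso (β : Nd M → ZMod 2) (z : ℕ) (j : Fin z) :
    (CG π β z).degree (Sum.inr j) = 0 := by
  rw [SimpleGraph.degree_eq_zero_iff_notMem_support]
  rintro ⟨x, hx⟩
  exact hx

open Classical in
theorem deg_le (β : Nd M → ZMod 2) (z : ℕ) (x : CV M z) : (CG π β z).degree x ≤ 9 := by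
  rcases x with ⟨v | e, l⟩ | j
  · rw [deg_node]
  · rw [deg_edge]; omega
  · rw [deg_iso]; omega

end Pool.Agent.H550R2.SymGI
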