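import Pool.Agent.H550R2.SymGI.Graph

set_option autoImplicit false
set_option linter.unusedSectionVars false

/-! The total charge is an isomorphism invariant. -/

namespace Pool.Agent.H550R2.SymGI

open Pool.Agent.H545R2 Pool.Agent.H545R2.SB Finset

variable {M : ℕ} (π : Fin 35 → Equiv.Perm (Fin M))

theorem two_fibre (κ : W4 → W4) (hκ : Function.Injective κ)
    (h : ∀ k k' : W4, k.2 = k'.2 → (κ k).2 = (κ k').2) (k : W4) :
    (κ k).2 = k.2 + (κ (0, 0)).2 := by
  have h2 : ∀ a : ZMod 2, a = 0 ∨ a = 1 := by decide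
  have hbad : ∀ p q r s : W4, p ≠ q → p ≠ r → q ≠ r → p.2 = q.2 → p.2 = r.2 → False := by
    decide
  have hne : (κ (0, 0)).2 ≠ (κ (0, 1)).2 := by
    intro he
    apply hbad (κ (0, 0)) (κ (1, 0)) (κ (0, 1)) (κ (0, 0))
    · exact fun h => absurd (hκ h) (by decide)
    · exact fun h => absurd (hκ h) (by decide)
    · exact fun h => absurd (hκ h) (by decide)
    · exact h _ _ rfl
    · exact he
  have h3 : ∀ a b : ZMod 2, a ≠ b → b = 1 + a := by decide
  rcases h2 k.2 with hk | hk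
  · rw [hk, zero_add]
    exact h _ _ hk
  · rw [h k (0, 1) hk, hk]
    exact h3 _ _ hne

/-- **The total charge is an isomorphism invariant.** -/
theorem parity {β β' : Nd M → ZMod 2} {z : ℕ} (f : CG π β z ≃g CG π β' z) :
    ∑ v, β v = ∑ v, β' v := by
  classical
  have hdeg : ∀ x, (CG π β' z).degree (f x) = (CG π β z).degree x := fun x => f.degree_eq x
  have hn : ∀ v l, ∃ v' l', f (Sum.inl (Sum.inl v, l)) = Sum.inl (Sum.inl v', l') := by
    intro v l
    have h1 := hdeg (Sum.inl (Sum.inl v, l))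
    rw [deg_node] at h1
    rcases hx : f (Sum.inl (Sum.inl v, l)) with ⟨v' | e', l'⟩ | j
    · exact ⟨v', l', rfl⟩
    · rw [hx, deg_edge] at h1; omega
    · rw [hx, deg_iso] at h1; omega
  have he : ∀ e k, ∃ e' k', f (Sum.inl (Sum.inr e, k)) = Sum.inl (Sum.inr e', k') := by
    intro e k
    have h1 := hdeg (Sum.inl (Sum.inr e, k))
    rw [deg_edge] at h1
    rcases hx : f (Sum.inl (Sum.inr e, k)) with ⟨v' | e', l'⟩ | j
    · rw [hx, deg_node] at h1; omega
    · exact ⟨e', l', rfl⟩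
    · rw [hx, deg_iso] at h1; omega
  choose σ0 lam hσ0 using hn
  choose τ0 κ hτ0 using he
  -- the fibre does not depend on the element
  have hσ : ∀ v l, σ0 v l = σ0 v 0 := by
    intro v l
    by_cases h : l = 0
    · rw [h]
    · have h1 : (CG π β z).Adj (Sum.inl (Sum.inl v, l)) (Sum.inl (Sum.inl v, 0)) :=
        (adj_nn π).2 ⟨rfl, h⟩
      have h2 := f.map_adj_iff.2 h1
      rw [hσ0, hσ0, adj_nn] at h2
      exact h2.1
  have hτ : ∀ e k, τ0 e k = τ0 e 0 := by
    intro e k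
    by_cases h : k = 0
    · rw [h]
    · have h1 : (CG π β z).Adj (Sum.inl (Sum.inr e, k)) (Sum.inl (Sum.inr e, 0)) :=
        (adj_ee π).2 ⟨rfl, h⟩
      have h2 := f.map_adj_iff.2 h1
      rw [hτ0, hτ0, adj_ee] at h2
      exact h2.1
  obtain ⟨σ, hσd⟩ : ∃ σ : Nd M → Nd M, ∀ v, σ v = σ0 v 0 := ⟨_, fun _ => rfl⟩
  obtain ⟨τ, hτd⟩ : ∃ τ : Ed M → Ed M, ∀ v, τ v = τ0 v 0 := ⟨_, fun _ => rfl⟩
  have fn : ∀ v l, f (Sum.inl (Sum.inl v, l)) = Sum.inl (Sum.inl (σ v), lam v l) := by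
    intro v l
    rw [hσ0, hσ, hσd]
  have fe : ∀ e k, f (Sum.inl (Sum.inr e, k)) = Sum.inl (Sum.inr (τ e), κ e k) := by
    intro e k
    rw [hτ0, hτ, hτd]
  have hlam : ∀ v, Function.Injective (lam v) := by
    intro v l l' h
    have h1 : f (Sum.inl (Sum.inl v, l)) = f (Sum.inl (Sum.inl v, l')) := by rw [fn, fn, h]
    have h2 := f.injective h1
    simp only [Sum.inl.injEq, Prod.mk.injEq, true_and] at h2
    exact h2
  have hκ : ∀ e, Function.Injective (κ e) := by
    intro e k k' h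
    have h1 : f (Sum.inl (Sum.inr e, k)) = f (Sum.inl (Sum.inr e, k')) := by rw [fe, fe, h]
    have h2 := f.injective h1
    simp only [Sum.inl.injEq, Prod.mk.injEq, true_and] at h2
    exact h2
  have hσi : Function.Injective σ := by
    intro v v' h
    obtain ⟨l, hl⟩ := (Finite.injective_iff_surjective.1 (hlam v)) (lam v' 0)
    have h1 : f (Sum.inl (Sum.inl v, l)) = f (Sum.inl (Sum.inl v', 0)) := by rw [fn, fn, h, hl]
    have h2 := f.injective h1
    simp only [Sum.inl.injEq, Prod.mk.injEq] at h2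
    exact h2.1
  have hτi : Function.Injective τ := by
    intro v v' h
    obtain ⟨l, hl⟩ := (Finite.injective_iff_surjective.1 (hκ v)) (κ v' 0)
    have h1 : f (Sum.inl (Sum.inr v, l)) = f (Sum.inl (Sum.inr v', 0)) := by rw [fe, fe, h, hl]
    have h2 := f.injective h1
    simp only [Sum.inl.injEq, Prod.mk.injEq, Sum.inr.injEq] at h2
    exact h2.1
  have hinc : ∀ v l e k, Inc π β v l e k → Inc π β' (σ v) (lam v l) (τ e) (κ e k) := by
    intro v l e k h
    have h1 : (CG π β z).Adj (Sum.inl (Sum.inl v, l)) (Sum.inl (Sum.inr e, k)) := h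
    have h2 := f.map_adj_iff.2 h1
    rw [fn, fe] at h2
    exact h2
  -- values on edges
  have hs : ∀ e k k', k.2 = k'.2 → (κ e k).2 = (κ e k').2 := by
    intro e k k' hk
    rcases hp : kap π (e, false) with ⟨v, s⟩
    have hes : esl π v s = e := by
      unfold esl
      rw [← hp, kapInv_kap]
    obtain ⟨l, hl⟩ := exists_ww (β v) k.2 s
    obtain ⟨s1, h1, h2⟩ := hinc v l e k ⟨s, hes, hl⟩
    obtain ⟨s2, h3, h4⟩ := hinc v l e k' ⟨s, hes, hl.trans hk⟩
    have h5 := esl_inj π _ (h1.trans h3.symm)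
    rw [← h2, ← h4, h5]
  have hs' : ∀ e k, (κ e k).2 = k.2 + (κ e (0, 0)).2 := fun e k =>
    two_fibre (κ e) (hκ e) (hs e) k
  -- nodes
  have hnode : ∀ v, β' (σ v) = β v + bd π (fun e => (κ e (0, 0)).2) v := by
    intro v
    have h1 : ∀ s : Fin 3, ∃ t : Fin 3, esl π (σ v) t = τ (esl π v s) ∧
        ww (β' (σ v)) (lam v 0) t = ww (β v) 0 s + (κ (esl π v s) (0, 0)).2 := by
      intro s
      obtain ⟨t, h2, h3⟩ := hinc v 0 (esl π v s) (0, ww (β v) 0 s) ⟨s, rfl, rfl⟩
      refine ⟨t, h2, ?_⟩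
      rw [h3, hs']
    choose t ht1 ht2 using h1
    have hti : Function.Injective t := by
      intro s s' h
      apply esl_inj π v
      apply hτi
      rw [← ht1, ← ht1, h]
    have h4 : ∑ s, ww (β' (σ v)) (lam v 0) (t s) = ∑ s, ww (β' (σ v)) (lam v 0) s :=
      (Equiv.ofBijective t (Finite.injective_iff_bijective.1 hti)).sum_comp
        (fun s => ww (β' (σ v)) (lam v 0) s)
    rw [ww_sum] at h4
    rw [← h4]
    simp only [ht2]
    rw [Finset.sum_add_distrib, ww_sum]
    rfl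
  have h6 : ∑ v, β' (σ v) = ∑ v, β' v :=
    (Equiv.ofBijective σ (Finite.injective_iff_bijective.1 hσi)).sum_comp (fun v => β' v)
  rw [← h6]
  simp only [hnode]
  rw [Finset.sum_add_distrib, bd_sum, add_zero]

end Pool.Agent.H550R2.SymGI
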